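import Pool.Agent.SCT.StmtsP

/-!
# Row ADJ of squad SCT: adjugate and kernel
-/

set_option autoImplicit false

namespace Pool.Agent.SCT.H25

open Pool.Agent.SCT Matrix

theorem adj : AdjStmt := by
  intro F _ A
  classical
  constructor
  · intro hA
    have hdet : A.det = 0 := by
      have h1 := Matrix.mul_adjugate A
      rw [hA, mul_zero] at h1
      have h2 := congrFun (congrFun h1 0) 0
      simpa using h2.symm
    obtain ⟨a, ha, hAa⟩ := Matrix.exists_mulVec_eq_zero_iff.mpr hdet
    by_contra hno
    have hker : ∀ z, A.mulVec z = 0 → ∃ μ : F, z = μ • a := by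
      intro z hz
      by_contra hcon
      refine hno ⟨a, z, ?_, hAa, hz⟩
      rw [LinearIndependent.pair_iff' ha]
      intro t ht
      exact hcon ⟨t, ht.symm⟩
    obtain ⟨i, hi⟩ := Function.ne_iff.mp ha
    have hi : a i ≠ 0 := hi
    have hy : ∃ y, ∀ w, A.mulVec w ≠ y := by
      by_contra h
      push Not at h
      have h1 : Function.Surjective A.mulVecLin := fun y => by
        obtain ⟨w, hw⟩ := h y
        exact ⟨w, hw⟩
      have h2 := (LinearMap.injective_iff_surjective (f := A.mulVecLin)).mpr h1
      apply ha
      apply h2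
      rw [map_zero]
      exact hAa
    obtain ⟨y, hy⟩ := hy
    have hB : (A.updateCol i y).mulVec = fun z => A.mulVec (Function.update z i 0) + z i • y := by
      funext z k
      simp only [Matrix.mulVec, dotProduct, Pi.add_apply, Pi.smul_apply, smul_eq_mul]
      have h1 : ∀ j, A.updateCol i y k j * z j =
          A k j * Function.update z i 0 j + (if j = i then z i * y k else 0) := by
        intro j
        by_cases hj : j = i
        · subst hj
          rw [Matrix.updateCol_self, Function.update_self, if_pos rfl]
          ring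
        · rw [Matrix.updateCol_ne hj, Function.update_of_ne hj, if_neg hj]
          ring
      rw [Finset.sum_congr rfl fun j _ => h1 j, Finset.sum_add_distrib, Finset.sum_ite_eq' Finset.univ i]
      simp
    have hBdet : (A.updateCol i y).det ≠ 0 := by
      intro h0
      obtain ⟨z, hz, hBz⟩ := Matrix.exists_mulVec_eq_zero_iff.mpr h0
      rw [hB] at hBz
      simp only at hBz
      have hzi : z i = 0 := by
        by_contra hzi
        apply hy (-(z i)⁻¹ • Function.update z i 0)
        rw [Matrix.mulVec_smul, eq_neg_of_add_eq_zero_left hBz, smul_neg, neg_smul, neg_neg,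
          smul_smul, inv_mul_cancel₀ hzi, one_smul]
      have h1 : Function.update z i 0 = z := by
        rw [← hzi, Function.update_eq_self]
      rw [hzi, zero_smul, add_zero, h1] at hBz
      obtain ⟨μ, hμ⟩ := hker z hBz
      have h2 : μ * a i = 0 := by
        rw [← hzi, hμ]
        rfl
      rcases mul_eq_zero.mp h2 with h3 | h3
      · apply hz
        rw [hμ, h3, zero_smul]
      · exact hi h3
    apply hBdet
    rw [← Matrix.cramer_apply, Matrix.cramer_eq_adjugate_mulVec, hA, Matrix.zero_mulVec]
    rfl
  · rintro ⟨a, b, hind, ha, hb⟩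
    ext i j
    rw [Matrix.adjugate_apply, Matrix.zero_apply]
    have hz : ∃ z : Fin (4 + 2) → F, z ≠ 0 ∧ z i = 0 ∧ A.mulVec z = 0 := by
      have ha0 : a ≠ 0 := by
        have := hind.ne_zero 0
        simpa using this
      by_cases hai : a i = 0
      · exact ⟨a, ha0, hai, ha⟩
      · refine ⟨b - (b i / a i) • a, ?_, ?_, ?_⟩
        · intro h0
          rw [LinearIndependent.pair_iff' ha0] at hind
          exact hind (b i / a i) (sub_eq_zero.mp h0).symm
        · simp only [Pi.sub_apply, Pi.smul_apply, smul_eq_mul]
          rw [div_mul_cancel₀ _ hai, sub_self]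
        · rw [Matrix.mulVec_sub, Matrix.mulVec_smul, ha, hb, smul_zero, sub_zero]
    obtain ⟨z, hz0, hzi, hAz⟩ := hz
    refine Matrix.exists_mulVec_eq_zero_iff.mp ⟨z, hz0, ?_⟩
    funext k
    by_cases hk : k = j
    · subst hk
      simp only [Matrix.mulVec, Matrix.updateRow_self, single_dotProduct, hzi, mul_zero,
        Pi.zero_apply]
    · simp only [Matrix.mulVec, Matrix.updateRow_ne hk]
      exact congrFun hAz k

end Pool.Agent.SCT.H25
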