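import Pool.Agent.SCT.StmtsB

/-!
# Row JAC of squad SCT: tangent spaces over a perfect field
-/

set_option autoImplicit false

namespace Pool.Agent.SCT.H25

open MvPolynomial Pool.Agent.SCT

/-- a derivation that vanishes on a set vanishes on the field generated by it -/
theorem der_adjoin {k L Ω : Type} [Field k] [Field L] [Field Ω] [Algebra k L] [Algebra L Ω]
    [Algebra k Ω] [IsScalarTower k L Ω] (s : Set L) (D : Derivation k L Ω)
    (h : ∀ x ∈ s, D x = 0) {x : L} (hx : x ∈ IntermediateField.adjoin k s) : D x = 0 := by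
  induction hx using IntermediateField.adjoin_induction with
  | mem x hx => exact h x hx
  | algebraMap x => exact D.map_algebraMap x
  | add x y _ _ hx hy => rw [map_add, hx, hy, add_zero]
  | inv x _ hx =>
    by_cases h0 : x = 0
    · rw [h0, inv_zero, map_zero]
    · have h1 := D.leibniz x⁻¹ x
      rw [inv_mul_cancel₀ h0, D.map_one_eq_zero, hx, smul_zero, zero_add] at h1
      exact (smul_eq_zero.mp h1.symm).resolve_left h0
  | mul x y _ _ hx hy => rw [D.leibniz, hx, hy, smul_zero, smul_zero, add_zero]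

/-- a derivation that vanishes on a set `s` such that `L` is separable over `k(s)` vanishes -/
theorem der_sep {k L Ω : Type} [Field k] [Field L] [Field Ω] [Algebra k L] [Algebra L Ω]
    [Algebra k Ω] [IsScalarTower k L Ω] (s : Set L)
    [hs : Algebra.IsSeparable (IntermediateField.adjoin k s) L] (D : Derivation k L Ω)
    (h : ∀ x ∈ s, D x = 0) : D = 0 := by
  let E : Derivation (IntermediateField.adjoin k s) L Ω := Derivation.mk'
    { toFun := D
      map_add' := fun a b => map_add D a b
      map_smul' := fun c a => by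
        have h1 : c • a = (c : L) * a := rfl
        rw [h1, D.leibniz, der_adjoin s D h c.2, smul_zero, add_zero]
        rfl } (fun a b => D.leibniz a b)
  have hE : ∀ z, E z = D z := fun z => rfl
  ext z
  have h1 := hs.isSeparable' z
  have h2 := E.map_aeval (minpoly (IntermediateField.adjoin k s) z) z
  rw [minpoly.aeval, map_zero] at h2
  have h3 : Polynomial.aeval z (Polynomial.derivative (minpoly (IntermediateField.adjoin k s) z)) ≠ 0 :=
    (Polynomial.Separable.aeval_derivative_ne_zero h1 (minpoly.aeval _ _))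
  rw [← hE]
  exact (smul_eq_zero.mp h2.symm).resolve_left h3

open scoped IntermediateField.algebraAdjoinAdjoin in
/-- a tangent vector gives a derivation of the field generated by the coordinates -/
theorem ex_der (hT : TayStmt) {k Ω : Type} [Field k] [Field Ω] [Algebra k Ω] {ι : Type}
    [Fintype ι] (y v : ι → Ω) (hv : v ∈ tan k y) :
    ∃ D : Derivation k (IntermediateField.adjoin k (Set.range y)) Ω,
      ∀ i, D ⟨y i, IntermediateField.subset_adjoin _ _ ⟨i, rfl⟩⟩ = v i := by
  classical
  let A := Algebra.adjoin k (Set.range y)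
  let C := IntermediateField.adjoin k (Set.range y)
  let f : MvPolynomial ι k →ₐ[k] A := aeval (fun i => (⟨y i, Algebra.subset_adjoin ⟨i, rfl⟩⟩ : A))
  have hf0 : ∀ g, ((f g : A) : Ω) = aeval y g := by
    intro g
    have h1 : (A.val.comp f) = (aeval y : MvPolynomial ι k →ₐ[k] Ω) := by
      ext i
      simp [f]
    exact DFunLike.congr_fun h1 g
  have hf : Function.Surjective f := by
    rintro ⟨x, hx⟩
    have hx' : x ∈ (aeval y : MvPolynomial ι k →ₐ[k] Ω).range :=
      (Algebra.adjoin_range_eq_range_aeval k y) ▸ hx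
    obtain ⟨g, hg⟩ := hx'
    exact ⟨g, Subtype.ext ((hf0 g).trans hg)⟩
  let q : MvPolynomial ι k →ₐ[k] TrivSqZeroExt Ω Ω :=
    aeval (fun i => (TrivSqZeroExt.inl (y i) + TrivSqZeroExt.inr (v i) : TrivSqZeroExt Ω Ω))
  have hq : ∀ g, q g = TrivSqZeroExt.inl (aeval y g) + TrivSqZeroExt.inr (dd g y v) :=
    fun g => (hT k Ω ι y v g).1
  have hker : RingHom.ker (f : MvPolynomial ι k →+* A) ≤
      RingHom.ker (q : MvPolynomial ι k →+* TrivSqZeroExt Ω Ω) := by
    intro g hg
    rw [RingHom.mem_ker] at hg ⊢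
    have h1 : aeval y g = 0 := by
      rw [← hf0 g]
      have h2 : f g = 0 := hg
      rw [h2]
      rfl
    change q g = 0
    rw [hq g, h1, hv g h1, TrivSqZeroExt.inl_zero, TrivSqZeroExt.inr_zero, add_zero]
  let ψ1 : A →+* TrivSqZeroExt Ω Ω :=
    RingHom.liftOfSurjective (f : MvPolynomial ι k →+* A) hf ⟨(q : MvPolynomial ι k →+* _), hker⟩
  have hψ1 : ∀ g, ψ1 (f g) = q g := fun g =>
    RingHom.liftOfRightInverse_comp_apply _ _ _ _ g
  have hfst : ∀ a : A, (ψ1 a).fst = (a : Ω) := by
    intro a
    obtain ⟨g, rfl⟩ := hf a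
    rw [hψ1, hq, hf0]
    simp
  have hunit : ∀ m : nonZeroDivisors A, IsUnit (ψ1 m) := by
    intro m
    rw [TrivSqZeroExt.isUnit_iff_isUnit_fst, hfst]
    exact isUnit_iff_ne_zero.mpr fun h => nonZeroDivisors.ne_zero m.2 (Subtype.ext h)
  let ψ : C →+* TrivSqZeroExt Ω Ω := IsLocalization.lift (M := nonZeroDivisors A) hunit
  have hψ : ∀ a : A, ψ (algebraMap A C a) = ψ1 a := fun a => IsLocalization.lift_eq hunit a
  have hψf : ∀ c : C, (ψ c).fst = (c : Ω) := by
    have h1 : (TrivSqZeroExt.fstHom Ω Ω Ω : TrivSqZeroExt Ω Ω →+* Ω).comp ψ =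
        (C.val : C →+* Ω) := by
      refine IsLocalization.ringHom_ext (nonZeroDivisors A) ?_
      ext a
      change (ψ (algebraMap A C a)).fst = ((algebraMap A C a : C) : Ω)
      rw [hψ, hfst]
      rfl
    intro c
    exact DFunLike.congr_fun h1 c
  have hψk : ∀ r : k, ψ (algebraMap k C r) = algebraMap k (TrivSqZeroExt Ω Ω) r := by
    intro r
    have h1 : algebraMap k C r = algebraMap A C (f (MvPolynomial.C r)) := by
      apply Subtype.ext
      change algebraMap k Ω r = ((f (MvPolynomial.C r) : A) : Ω)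
      rw [hf0, aeval_C]
    rw [h1, hψ, hψ1]
    exact q.commutes r
  refine ⟨Derivation.mk'
    { toFun := fun c => (ψ c).snd
      map_add' := fun a b => by rw [map_add, TrivSqZeroExt.snd_add]
      map_smul' := fun c a => by
        rw [Algebra.smul_def, map_mul, hψk, ← Algebra.smul_def]
        rfl } (fun a b => ?_), fun i => ?_⟩
  · change (ψ (a * b)).snd = a • (ψ b).snd + b • (ψ a).snd
    rw [map_mul, TrivSqZeroExt.snd_mul, hψf, hψf, op_smul_eq_smul]
    rfl
  · change (ψ ⟨y i, _⟩).snd = v i
    have h1 : (⟨y i, IntermediateField.subset_adjoin _ _ ⟨i, rfl⟩⟩ : C) =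
        algebraMap A C (f (X i)) := by
      apply Subtype.ext
      change y i = ((f (X i) : A) : Ω)
      rw [hf0, aeval_X]
    rw [h1, hψ, hψ1]
    simp [q]

theorem jac (hT : TayStmt) : JacStmt := by
  intro k Ω _ _ _ _ ι _ y d hd
  classical
  let C := IntermediateField.adjoin k (Set.range y)
  have hC : Algebra.EssFiniteType k C := by
    rw [IntermediateField.essFiniteType_iff]
    exact IntermediateField.fg_adjoin_of_finite (Set.finite_range y)
  obtain ⟨s, hs, hsep⟩ := exists_isTranscendenceBasis_and_isSeparable_of_perfectField k C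
  have hcard : s.card ≤ d := by
    have h1 := hs.cardinalMk_eq_trdeg
    rw [Cardinal.mk_coe_finset] at h1
    have h2 : (s.card : Cardinal) ≤ d := h1.le.trans hd
    exact_mod_cast h2
  let Φ : Derivation k C Ω →ₗ[Ω] (ι → Ω) :=
    { toFun := fun D i => D ⟨y i, IntermediateField.subset_adjoin _ _ ⟨i, rfl⟩⟩
      map_add' := fun a b => rfl
      map_smul' := fun a b => rfl }
  let Ψ : Derivation k C Ω →ₗ[Ω] (s → Ω) :=
    { toFun := fun D i => D i
      map_add' := fun a b => rfl
      map_smul' := fun a b => rfl }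
  have hΨ : Function.Injective Ψ := by
    rw [← LinearMap.ker_eq_bot, LinearMap.ker_eq_bot']
    intro D hD
    refine der_sep (s : Set C) D fun x hx => ?_
    exact congrFun hD ⟨x, hx⟩
  have hfin : Module.Finite Ω (Derivation k C Ω) := Module.Finite.of_injective Ψ hΨ
  have h1 : tan k y ≤ LinearMap.range Φ := by
    intro v hv
    obtain ⟨D, hD⟩ := ex_der hT y v hv
    exact ⟨D, funext hD⟩
  calc Module.finrank Ω (tan k y) ≤ Module.finrank Ω (LinearMap.range Φ) :=
        Submodule.finrank_mono h1
    _ ≤ Module.finrank Ω (Derivation k C Ω) := LinearMap.finrank_range_le Φ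
    _ ≤ Module.finrank Ω (s → Ω) := LinearMap.finrank_le_finrank_of_injective hΨ
    _ = s.card := by simp
    _ ≤ d := hcard

end Pool.Agent.SCT.H25
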